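import Pool.Agent.helper64.QF.Spec

set_option autoImplicit false

namespace Pool.Agent.helper64.QF

open Metric MeasureTheory Set Filter Topology
open Pool.Agent.helper37.PR

private theorem qA_real_smul {n : ℕ} (A : E n →L[ℂ] E n) (s : ℝ) (y : E n) :
    qA A ((s : ℂ) • y) = s ^ 2 * qA A y := by
  unfold qA
  rw [map_smul, inner_smul_left, inner_smul_right, Complex.conj_ofReal, Complex.re_ofReal_mul,
    Complex.re_ofReal_mul]
  ring

theorem SUP (hKEX : KEX_stmt) (hSG0 : SG0_stmt) : SUP_stmt := by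
  intro n A h hc hA U V
  obtain ⟨-, -, -, hinf, -, -, -⟩ := hSG0 n A hA
  refine hinf U V _ ?_
  rintro a b ⟨ha, hb, haU, hbV, hab⟩
  have h1 : ‖(a : ℂ) • U‖ = a * ‖U‖ := by
    rw [norm_smul, Complex.norm_real, Real.norm_eq_abs, abs_of_pos ha]
  have h2 : ‖(b : ℂ) • V‖ = b * ‖V‖ := by
    rw [norm_smul, Complex.norm_real, Real.norm_eq_abs, abs_of_pos hb]
  have h3 : ‖(inner ℂ ((a : ℂ) • U) ((b : ℂ) • V) : ℂ)‖ = a * b * ‖(inner ℂ U V : ℂ)‖ := by
    rw [inner_smul_left, inner_smul_right, norm_mul, norm_mul, Complex.norm_conj,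
      Complex.norm_real, Complex.norm_real, Real.norm_eq_abs, Real.norm_eq_abs, abs_of_pos ha,
      abs_of_pos hb]
    ring
  have key := hKEX n A h hc ((a : ℂ) • U) ((b : ℂ) • V) (by rw [h1]; exact haU)
    (by rw [h2]; exact hbV) (by rw [h1, h2, h3]; exact hab)
  rw [P2_smul, inner_smul_left, inner_smul_right, norm_mul, norm_mul, Complex.norm_conj, norm_pow,
    Complex.norm_real, Complex.norm_real, Real.norm_eq_abs, Real.norm_eq_abs, abs_of_pos ha,
    abs_of_pos hb, qA_real_smul, qA_real_smul] at key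
  unfold cost
  have hpos : 0 < b * a ^ 2 := by positivity
  have e1 : qA A U / b + b * qA A V / a ^ 2 =
      (a ^ 2 * qA A U + b ^ 2 * qA A V) / (b * a ^ 2) := by
    field_simp
  rw [e1, le_div_iff₀ hpos]
  calc ‖(inner ℂ V (P2 h U) : ℂ)‖ * (b * a ^ 2)
      = b * (a ^ 2 * ‖(inner ℂ V (P2 h U) : ℂ)‖) := by ring
    _ ≤ _ := key

end Pool.Agent.helper64.QF
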